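import Pool.Agent.Lib.H77TW.Main
import Pool.Agent.Lib.H8TW.Final

/-!
# Tree decompositions indexed by `Fin m` with set bags (problem MP_8470a8_co)
-/

set_option autoImplicit false

namespace Pool.Agent.H77TW

open Pool.Agent.H66TW SimpleGraph

/-- tree decompositions over `Fin m` with bags of at most `b` vertices -/
def DecFin {V : Type*} (G : SimpleGraph V) (b : ℕ) : Prop :=
  ∃ m : ℕ, ∃ T : SimpleGraph (Fin m), ∃ bag : Fin m → Set V,
    T.IsTree ∧ (∀ v, ∃ i, v ∈ bag i) ∧
    (∀ u v, G.Adj u v → ∃ i, u ∈ bag i ∧ v ∈ bag i) ∧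
    (∀ v, (T.induce {i | v ∈ bag i}).Connected) ∧
    ∀ i, (bag i).ncard ≤ b

theorem decFin_of_has {V : Type*} [Finite V] (G : SimpleGraph V) {b : ℕ}
    (h : H8TW.HasTreeDecomp G b) : DecFin G (b + 1) := by
  classical
  obtain ⟨N, _, T, X, hT, hc, htr, hedge⟩ := h
  let e : N ≃ Fin (Fintype.card N) := Fintype.equivFin N
  refine ⟨Fintype.card N, T.comap e.symm, fun i => (X (e.symm i) : Set V), ?_, ?_, ?_, ?_, ?_⟩
  · exact ((Iso.comap e.symm T).isTree_iff).mpr hT
  · intro v
    obtain ⟨⟨n, hn⟩⟩ := (htr v).nonempty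
    exact ⟨e n, by simpa using hn⟩
  · intro u v huv
    obtain ⟨n, h1, h2⟩ := hedge u v huv
    exact ⟨e n, by simpa using h1, by simpa using h2⟩
  · intro v
    have hiso : (T.comap e.symm).induce {i | v ∈ (X (e.symm i) : Set V)} ≃g
        T.induce {n | v ∈ X n} :=
      { toFun := fun i => ⟨e.symm i.1, i.2⟩
        invFun := fun n => ⟨e n.1, show v ∈ (X (e.symm (e n.1)) : Set V) by
          rw [e.symm_apply_apply]
          exact n.2⟩
        left_inv := fun i => by simp
        right_inv := fun n => by simp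
        map_rel_iff' := by
          intro a b
          simp }
    exact hiso.connected_iff.mpr (htr v)
  · intro i
    rw [Set.ncard_coe_finset]
    exact hc _

theorem has_of_decFin {V : Type*} [Finite V] (G : SimpleGraph V) {b : ℕ}
    (h : DecFin G (b + 1)) : H8TW.HasTreeDecomp G b := by
  classical
  obtain ⟨m, T, bag, hT, _, hedge, htr, hc⟩ := h
  have hfin : ∀ i, (bag i).Finite := fun i => Set.toFinite _
  refine ⟨Fin m, inferInstance, T, fun i => (hfin i).toFinset, hT, ?_, ?_, ?_⟩
  · intro i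
    rw [← Set.ncard_eq_toFinset_card _ (hfin i)]
    exact hc i
  · intro v
    have : {n | v ∈ (hfin n).toFinset} = {i | v ∈ bag i} := by
      ext i
      simp
    rw [this]
    exact htr v
  · intro u v huv
    obtain ⟨i, h1, h2⟩ := hedge u v huv
    exact ⟨i, by simpa using h1, by simpa using h2⟩

theorem decFin_mono {V : Type*} (G : SimpleGraph V) {b c : ℕ} (h : DecFin G b) (hbc : b ≤ c) :
    DecFin G c := by
  obtain ⟨m, T, bag, h1, h2, h3, h4, h5⟩ := h
  exact ⟨m, T, bag, h1, h2, h3, h4, fun i => (h5 i).trans hbc⟩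

/-- a decomposition with empty bags only exists for the graph without vertices -/
theorem not_decFin_zero {V : Type*} [Finite V] [Nonempty V] (G : SimpleGraph V) :
    ¬ DecFin G 0 := by
  rintro ⟨m, T, bag, _, h2, _, _, h5⟩
  obtain ⟨v⟩ := (inferInstance : Nonempty V)
  obtain ⟨i, hi⟩ := h2 v
  have h6 := h5 i
  have h7 : (bag i).ncard = 0 := by omega
  rw [Set.ncard_eq_zero (Set.toFinite _)] at h7
  rw [h7] at hi
  exact hi

/-- the inductive notion from the standard one, on the whole graph -/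
theorem not_TW_of_not_decFin {V : Type} [Fintype V] [DecidableEq V] (G : SimpleGraph V) {w : ℕ}
    (hw : 1 ≤ w) (h : ¬ DecFin G w) : ¬ TW G w Finset.univ := by
  obtain ⟨b, rfl⟩ := Nat.exists_eq_add_of_le hw
  rw [Nat.add_comm 1 b] at h ⊢
  intro hT
  rw [← H8TW.hasTreeDecomp_induce_iff, Finset.coe_univ, H8TW.hasTreeDecomp_induce_univ] at hT
  exact h (decFin_of_has G hT)

/-- the standard notion from the inductive one, on an induced subgraph -/
theorem not_decFin_of_not_TW {V : Type} [Fintype V] [DecidableEq V] (G : SimpleGraph V)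
    (D : Finset V) {b : ℕ} (h : ¬ TW G (b + 1) D) :
    ¬ DecFin (G.induce (D : Set V)) (b + 1) := by
  intro hD
  exact h ((H8TW.hasTreeDecomp_induce_iff G D b).mp (has_of_decFin _ hD))

/-- least bag size -/
theorem exists_width {V : Type} [Fintype V] [DecidableEq V] (G : SimpleGraph V) {w : ℕ}
    (h : ¬ TW G w Finset.univ) :
    ∃ w', w < w' ∧ TW G w' Finset.univ ∧ ¬ TW G (w' - 1) Finset.univ := by
  classical
  have hex : ∃ k, TW G k Finset.univ := ⟨Finset.univ.card, TW.of_card le_rfl⟩
  refine ⟨Nat.find hex, ?_, Nat.find_spec hex, ?_⟩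
  · by_contra hle
    exact h ((Nat.find_spec hex).mono (by omega))
  · by_cases h0 : Nat.find hex = 0
    · intro h1
      exact h ((Nat.find_spec hex).mono (by omega))
    · exact Nat.find_min hex (by omega)

/-- **Splitting, for the least bag size.** -/
theorem split_linear {V : Type} [Fintype V] [DecidableEq V] (G : SimpleGraph V) {w t : ℕ}
    (h : ¬ TW G w Finset.univ) (ht : 2 ≤ t) (htw : 2000000 * t ≤ w) :
    ∃ D : Finset V, ¬ TW G t D ∧ ¬ TW G t Dᶜ := by
  obtain ⟨w', h1, h2, h3⟩ := exists_width G h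
  have hs : t + 2 * (w' / 5) < w' := by omega
  have hC : 35000 * t * w' ≤ (w' / 5) ^ 2 := by
    have e1 : w' ≤ 6 * (w' / 5) := by omega
    have e2 : 210000 * t ≤ w' / 5 := by omega
    calc 35000 * t * w' ≤ 35000 * t * (6 * (w' / 5)) := Nat.mul_le_mul_left _ e1
      _ = 210000 * t * (w' / 5) := by ring
      _ ≤ w' / 5 * (w' / 5) := Nat.mul_le_mul_right _ e2
      _ = (w' / 5) ^ 2 := by ring
  obtain ⟨D, hD1, hD2⟩ := split3 ht h2 h3 hs hC
  exact ⟨D, hD1, fun h => hD2 (h.mono (by omega))⟩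

end Pool.Agent.H77TW
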