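import Pool.Agent.Lib.H66TW.TD

/-!
# Edge sets, their vertex boundaries, tokens and partitions (project MP_14fa4b_co)

`edg G`: all ordered edges. `vs F`: the ends of the edges of `F`. `bd G F`: the ends of edges of
`F` which are also ends of edges outside `F`. A token is an edge set with small boundary and small
treewidth; `HasCost G p t A n`: the edge set `A` can be partitioned into tokens with total boundary
at most `n`.
-/

set_option autoImplicit false

namespace Pool.Agent.H77TW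

open Finset Pool.Agent.H66TW

variable {V : Type*} [DecidableEq V] [Fintype V]

/-- all ordered edges of `G` -/
noncomputable def edg (G : SimpleGraph V) : Finset (V × V) := by
  classical exact univ.filter (fun e => G.Adj e.1 e.2)

/-- the ends of the edges of `F` -/
def vs (F : Finset (V × V)) : Finset V := F.image Prod.fst ∪ F.image Prod.snd

/-- the vertex boundary of the edge set `F` -/
noncomputable def bd (G : SimpleGraph V) (F : Finset (V × V)) : Finset V :=
  vs F ∩ vs (edg G \ F)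

/-- edge sets with small boundary and small treewidth -/
def Tok (G : SimpleGraph V) (p t : ℕ) (P : Finset (V × V)) : Prop :=
  (bd G P).card ≤ p ∧ TW G t (vs P)

/-- partition of `A` into tokens -/
structure Par (G : SimpleGraph V) (p t : ℕ) (A : Finset (V × V))
    (Ps : Finset (Finset (V × V))) : Prop where
  un : Ps.biUnion id = A
  dis : ∀ P ∈ Ps, ∀ Q ∈ Ps, P ≠ Q → Disjoint P Q
  tok : ∀ P ∈ Ps, Tok G p t P

/-- total boundary of a partition -/
noncomputable def cost (G : SimpleGraph V) (Ps : Finset (Finset (V × V))) : ℕ :=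
  ∑ P ∈ Ps, (bd G P).card

/-- `A` has a partition into tokens with total boundary at most `n` -/
def HasCost (G : SimpleGraph V) (p t : ℕ) (A : Finset (V × V)) (n : ℕ) : Prop :=
  ∃ Ps, Par G p t A Ps ∧ cost G Ps ≤ n

variable {G : SimpleGraph V}

omit [DecidableEq V] in
theorem mem_edg {e : V × V} : e ∈ edg G ↔ G.Adj e.1 e.2 := by
  classical
  unfold edg
  simp

omit [Fintype V] in
theorem mem_vs {F : Finset (V × V)} {v : V} : v ∈ vs F ↔ ∃ e ∈ F, e.1 = v ∨ e.2 = v := by
  unfold vs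
  simp only [mem_union, mem_image]
  constructor
  · rintro (⟨e, he, h⟩ | ⟨e, he, h⟩)
    · exact ⟨e, he, Or.inl h⟩
    · exact ⟨e, he, Or.inr h⟩
  · rintro ⟨e, he, h | h⟩
    · exact Or.inl ⟨e, he, h⟩
    · exact Or.inr ⟨e, he, h⟩

omit [Fintype V] in
theorem vs_mono {F F' : Finset (V × V)} (h : F ⊆ F') : vs F ⊆ vs F' := by
  intro v hv
  rw [mem_vs] at hv ⊢
  obtain ⟨e, he, h'⟩ := hv
  exact ⟨e, h he, h'⟩

omit [Fintype V] in
theorem vs_union {F F' : Finset (V × V)} : vs (F ∪ F') = vs F ∪ vs F' := by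
  ext v
  simp only [mem_vs, mem_union]
  constructor
  · rintro ⟨e, he | he, h⟩
    · exact Or.inl ⟨e, he, h⟩
    · exact Or.inr ⟨e, he, h⟩
  · rintro (⟨e, he, h⟩ | ⟨e, he, h⟩)
    · exact ⟨e, Or.inl he, h⟩
    · exact ⟨e, Or.inr he, h⟩

omit [Fintype V] in
theorem vs_empty : vs (∅ : Finset (V × V)) = ∅ := by
  unfold vs
  simp

theorem mem_bd {F : Finset (V × V)} {v : V} : v ∈ bd G F ↔
    v ∈ vs F ∧ ∃ e ∈ edg G, e ∉ F ∧ (e.1 = v ∨ e.2 = v) := by
  unfold bd
  rw [mem_inter, mem_vs (F := edg G \ F)]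
  constructor
  · rintro ⟨h, e, he, h'⟩
    rw [mem_sdiff] at he
    exact ⟨h, e, he.1, he.2, h'⟩
  · rintro ⟨h, e, he, he', h'⟩
    exact ⟨h, e, mem_sdiff.mpr ⟨he, he'⟩, h'⟩

theorem bd_sub {F : Finset (V × V)} : bd G F ⊆ vs F := inter_subset_left

theorem bd_empty : bd G (∅ : Finset (V × V)) = ∅ := by
  unfold bd
  rw [vs_empty, empty_inter]

/-- an interior vertex has all its neighbours among the ends -/
theorem nbr_of_not_bd {F : Finset (V × V)} {v : V} (hv : v ∈ vs F) (hb : v ∉ bd G F) {u : V}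
    (huv : G.Adj v u) : u ∈ vs F := by
  by_contra hu
  apply hb
  rw [mem_bd]
  refine ⟨hv, (v, u), mem_edg.mpr huv, ?_, Or.inl rfl⟩
  intro h
  exact hu (mem_vs.mpr ⟨(v, u), h, Or.inr rfl⟩)

theorem bd_union {F F' : Finset (V × V)} : bd G (F ∪ F') ⊆ bd G F ∪ bd G F' := by
  intro v hv
  rw [mem_bd, vs_union, mem_union] at hv
  obtain ⟨hv, e, he, he', h⟩ := hv
  rw [mem_union, not_or] at he'
  rw [mem_union, mem_bd, mem_bd]
  rcases hv with h' | h'
  · exact Or.inl ⟨h', e, he, he'.1, h⟩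
  · exact Or.inr ⟨h', e, he, he'.2, h⟩

theorem bd_biUnion (Xs : Finset (Finset (V × V))) :
    bd G (Xs.biUnion id) ⊆ Xs.biUnion (fun P => bd G P) := by
  intro v hv
  rw [mem_bd] at hv
  obtain ⟨hv, e, he, he', h⟩ := hv
  rw [mem_vs] at hv
  obtain ⟨e', he'', h'⟩ := hv
  rw [mem_biUnion] at he''
  obtain ⟨P, hP, heP⟩ := he''
  rw [mem_biUnion]
  refine ⟨P, hP, mem_bd.mpr ⟨mem_vs.mpr ⟨e', heP, h'⟩, e, he, ?_, h⟩⟩
  intro h2
  exact he' (mem_biUnion.mpr ⟨P, hP, h2⟩)

/-- a partition of the union -/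
theorem HasCost.union {p t n m : ℕ} {A B : Finset (V × V)} (hd : Disjoint A B)
    (hA : HasCost G p t A n) (hB : HasCost G p t B m) : HasCost G p t (A ∪ B) (n + m) := by
  classical
  obtain ⟨Ps, hP, hPc⟩ := hA
  obtain ⟨Qs, hQ, hQc⟩ := hB
  refine ⟨Ps ∪ Qs, ⟨?_, ?_, ?_⟩, ?_⟩
  · rw [union_biUnion, hP.un, hQ.un]
  · intro P h1 Q h2 hne
    have sub1 : ∀ P ∈ Ps, P ⊆ A := fun P h => hP.un ▸ subset_biUnion_of_mem id h
    have sub2 : ∀ P ∈ Qs, P ⊆ B := fun P h => hQ.un ▸ subset_biUnion_of_mem id h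
    rcases mem_union.mp h1 with h1 | h1 <;> rcases mem_union.mp h2 with h2 | h2
    · exact hP.dis P h1 Q h2 hne
    · exact disjoint_of_subset_left (sub1 P h1) (disjoint_of_subset_right (sub2 Q h2) hd)
    · exact disjoint_of_subset_left (sub2 P h1) (disjoint_of_subset_right (sub1 Q h2) hd.symm)
    · exact hQ.dis P h1 Q h2 hne
  · intro P h1
    rcases mem_union.mp h1 with h1 | h1
    · exact hP.tok P h1
    · exact hQ.tok P h1
  · unfold cost at *
    have h1 := sum_union_inter (s₁ := Ps) (s₂ := Qs) (f := fun P => (bd G P).card)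
    omega

theorem HasCost.mono {p t n m : ℕ} {A : Finset (V × V)} (h : HasCost G p t A n) (hn : n ≤ m) :
    HasCost G p t A m := by
  obtain ⟨Ps, hP, hPc⟩ := h
  exact ⟨Ps, hP, hPc.trans hn⟩

theorem HasCost.of_tok {p t : ℕ} {A : Finset (V × V)} (h : Tok G p t A) :
    HasCost G p t A (bd G A).card := by
  refine ⟨{A}, ⟨by simp, ?_, by simpa using h⟩, by simp [cost]⟩
  intro P h1 Q h2 hne
  rw [mem_singleton] at h1 h2
  exact absurd (h1.trans h2.symm) hne

theorem HasCost.empty {p t : ℕ} : HasCost G p t ∅ 0 := by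
  refine ⟨∅, ⟨by simp, by simp, by simp⟩, by simp [cost]⟩

omit [Fintype V] in
theorem vs_singleton (e : V × V) : vs {e} = {e.1, e.2} := by
  unfold vs
  ext v
  simp

/-- a single edge is a token -/
theorem HasCost.single {p t : ℕ} (hp : 2 ≤ p) (ht : 2 ≤ t) (e : V × V) :
    HasCost G p t {e} 2 := by
  have h1 : (vs {e}).card ≤ 2 := by
    rw [vs_singleton]
    exact card_le_two
  have h2 : (bd G {e}).card ≤ 2 := (card_le_card bd_sub).trans h1
  exact (HasCost.of_tok ⟨h2.trans hp, TW.of_card (h1.trans ht)⟩).mono h2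

end Pool.Agent.H77TW
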