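import Pool.Agent.Lib.H77TW.Edge

/-!
# Regions with a controlled partition cost (helper66)
-/

set_option autoImplicit false

namespace Pool.Agent.H77TW

open Finset Pool.Agent.H66TW

variable {V : Type*} [DecidableEq V] [Fintype V] {G : SimpleGraph V}

theorem exists_region_aux {p t w T : ℕ} (hp : 2 ≤ p) (ht : 2 ≤ t) {D β : Finset V}
    (hT : TD G w D β) : ∀ F ⊆ edg G, vs F ⊆ D → (∀ v ∈ vs F, v ∉ β → v ∉ bd G F) →
    HasCost G p t F T ∨ ∃ A ⊆ edg G, (bd G A).card ≤ w ∧ ¬ HasCost G p t A T ∧
      HasCost G p t A (2 * T + 2) := by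
  classical
  induction hT with
  | leaf β hβ =>
    intro F hF hFD _
    -- add the edges one by one
    have key : ∀ F' : Finset (V × V), F' ⊆ F → HasCost G p t F' T ∨ ∃ A ⊆ edg G,
        (bd G A).card ≤ w ∧ ¬ HasCost G p t A T ∧ HasCost G p t A (2 * T + 2) := by
      intro F'
      induction F' using Finset.induction_on with
      | empty => intro _; exact Or.inl (HasCost.empty.mono (Nat.zero_le _))
      | insert e F'' he ih =>
        intro hsub
        rcases ih ((subset_insert _ _).trans hsub) with h | h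
        · by_cases hc : HasCost G p t (insert e F'') T
          · exact Or.inl hc
          · right
            refine ⟨insert e F'', hsub.trans hF, ?_, hc, ?_⟩
            · exact (card_le_card (bd_sub.trans ((vs_mono hsub).trans hFD))).trans hβ
            · have h1 : HasCost G p t ({e} ∪ F'') (2 + T) :=
                HasCost.union (disjoint_singleton_left.mpr he) (HasCost.single hp ht e) h
              have h2 : insert e F'' = {e} ∪ F'' := by
                rw [insert_eq]
              rw [h2]
              exact h1.mono (by omega)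
        · exact Or.inr h
    exact key F (Subset.refl _)
  | glue D₁ β₁ D₂ β₂ t1 t2 h3 h4 ih1 ih2 =>
    intro F hF hFD hin
    set F₁ := F.filter (fun e => e.1 ∈ D₁ ∧ e.2 ∈ D₁) with hF₁
    set F₂ := F \ F₁ with hF₂
    have hb1 := t1.root_sub
    have hends : ∀ e ∈ F, (e.1 ∈ D₁ ∪ D₂) ∧ (e.2 ∈ D₁ ∪ D₂) := fun e he =>
      ⟨hFD (mem_vs.mpr ⟨e, he, Or.inl rfl⟩), hFD (mem_vs.mpr ⟨e, he, Or.inr rfl⟩)⟩
    have hadj : ∀ e ∈ F, G.Adj e.1 e.2 := fun e he => mem_edg.mp (hF he)
    -- an edge with an end outside `D₁` lies in `D₂`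
    have hside2 : ∀ e ∈ F, (e.1 ∉ D₁ ∨ e.2 ∉ D₁) → e.1 ∈ D₂ ∧ e.2 ∈ D₂ := by
      intro e he hne
      obtain ⟨h1, h2⟩ := hends e he
      rw [mem_union] at h1 h2
      rcases hne with h | h
      · have h1' := h1.resolve_left h
        refine ⟨h1', ?_⟩
        by_contra h2'
        exact h4 e.2 (mem_sdiff.mpr ⟨h2.resolve_right h2', h2'⟩) e.1 (mem_sdiff.mpr ⟨h1', h⟩)
          (hadj e he).symm
      · have h2'' := h2.resolve_left h
        refine ⟨?_, h2''⟩
        by_contra h1'
        exact h4 e.1 (mem_sdiff.mpr ⟨h1.resolve_right h1', h1'⟩) e.2 (mem_sdiff.mpr ⟨h2'', h⟩)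
          (hadj e he)
    -- an edge with an end outside `D₂` lies in `D₁`
    have hside1 : ∀ e ∈ F, (e.1 ∉ D₂ ∨ e.2 ∉ D₂) → e.1 ∈ D₁ ∧ e.2 ∈ D₁ := by
      intro e he hne
      by_contra hcon
      rw [not_and_or] at hcon
      have := hside2 e he hcon
      tauto
    have hF1sub : F₁ ⊆ F := filter_subset _ _
    have hF2sub : F₂ ⊆ F := sdiff_subset
    have hvs1 : vs F₁ ⊆ D₁ := by
      intro v hv
      rw [mem_vs] at hv
      obtain ⟨e, he, h⟩ := hv
      rw [hF₁, mem_filter] at he
      rcases h with h | h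
      · rw [← h]; exact he.2.1
      · rw [← h]; exact he.2.2
    have hvs2 : vs F₂ ⊆ D₂ := by
      intro v hv
      rw [mem_vs] at hv
      obtain ⟨e, he, h⟩ := hv
      rw [hF₂, mem_sdiff, hF₁, mem_filter, not_and] at he
      have h5 := he.2 he.1
      rw [not_and_or] at h5
      have := hside2 e he.1 h5
      rcases h with h | h
      · rw [← h]; exact this.1
      · rw [← h]; exact this.2
    have hin1 : ∀ v ∈ vs F₁, v ∉ β₁ → v ∉ bd G F₁ := by
      intro v hv hvb hbd
      have hv1 := hvs1 hv
      have hv2 : v ∉ D₂ := fun h => hvb (mem_inter.mp (h3 (mem_inter.mpr ⟨hv1, h⟩))).1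
      rw [mem_bd] at hbd
      obtain ⟨_, e, he, heF, hev⟩ := hbd
      have hnb := hin v (vs_mono hF1sub hv) hvb
      by_cases heF' : e ∈ F
      · have : e.1 ∈ D₁ ∧ e.2 ∈ D₁ := by
          apply hside1 e heF'
          rcases hev with h | h
          · left; rw [h]; exact hv2
          · right; rw [h]; exact hv2
        exact heF (mem_filter.mpr ⟨heF', this⟩)
      · exact hnb (mem_bd.mpr ⟨vs_mono hF1sub hv, e, he, heF', hev⟩)
    have hin2 : ∀ v ∈ vs F₂, v ∉ β₂ → v ∉ bd G F₂ := by
      intro v hv hvb hbd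
      have hv2 := hvs2 hv
      have hv1 : v ∉ D₁ := fun h => hvb (mem_inter.mp (h3 (mem_inter.mpr ⟨h, hv2⟩))).2
      rw [mem_bd] at hbd
      obtain ⟨_, e, he, heF, hev⟩ := hbd
      have hnb := hin v (vs_mono hF2sub hv) (fun h => hv1 (hb1 h))
      by_cases heF' : e ∈ F
      · apply heF
        rw [hF₂, mem_sdiff]
        refine ⟨heF', ?_⟩
        rw [hF₁, mem_filter]
        rintro ⟨_, h5, h6⟩
        rcases hev with h | h
        · exact hv1 (h ▸ h5)
        · exact hv1 (h ▸ h6)
      · exact hnb (mem_bd.mpr ⟨vs_mono hF2sub hv, e, he, heF', hev⟩)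
    rcases ih1 F₁ (hF1sub.trans hF) hvs1 hin1 with c1 | c1
    · rcases ih2 F₂ (hF2sub.trans hF) hvs2 hin2 with c2 | c2
      · by_cases hc : HasCost G p t F T
        · exact Or.inl hc
        · right
          refine ⟨F, hF, ?_, hc, ?_⟩
          · refine (card_le_card ?_).trans t1.root_card
            intro v hv
            by_contra hvb
            exact hin v (bd_sub hv) hvb hv
          · have h1 : HasCost G p t (F₁ ∪ F₂) (T + T) :=
              HasCost.union disjoint_sdiff c1 c2
            have h2 : F₁ ∪ F₂ = F := by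
              rw [hF₂]; exact union_sdiff_of_subset hF1sub
            rw [h2] at h1
            exact h1.mono (by omega)
      · exact Or.inr c2
    · exact Or.inr c1

/-- either all edges have a cheap partition, or there is a region with small boundary whose
partition cost is controlled from both sides -/
theorem exists_region {p t w : ℕ} (hp : 2 ≤ p) (ht : 2 ≤ t) (hw : TW G w univ) (T : ℕ) :
    HasCost G p t (edg G) T ∨ ∃ A ⊆ edg G, (bd G A).card ≤ w ∧ ¬ HasCost G p t A T ∧
      HasCost G p t A (2 * T + 2) := by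
  obtain ⟨β, hT⟩ := hw
  refine exists_region_aux hp ht hT (edg G) (Subset.refl _) (subset_univ _) ?_
  intro v _ _ hbd
  rw [mem_bd] at hbd
  obtain ⟨_, e, he, he', _⟩ := hbd
  exact he' he

end Pool.Agent.H77TW
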