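import Pool.Agent.Lib.H77TW.Edge
import Pool.Agent.Lib.H66TW.Core

/-!
# Unions of tokens of small total boundary have small treewidth (helper66)
-/

set_option autoImplicit false

namespace Pool.Agent.H77TW

open Finset Pool.Agent.H66TW

variable {V : Type*} [DecidableEq V] [Fintype V] {G : SimpleGraph V}

theorem tw_small {p t w s : ℕ} (hw' : ¬ TW G (w - 1) univ)
    (H : ∀ D, TW G t D ∨ TW G (w - s - 1) Dᶜ) (hs : t + 2 * s < w)
    {Xs : Finset (Finset (V × V))} (hX : ∀ P ∈ Xs, P ⊆ edg G ∧ Tok G p t P)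
    (hd : ∀ P ∈ Xs, ∀ Q ∈ Xs, P ≠ Q → Disjoint P Q) (hc : cost G Xs ≤ s) :
    TW G t (vs (Xs.biUnion id)) := by
  classical
  set B := Xs.biUnion (fun P => bd G P) with hB
  have hBc : B.card ≤ s := by
    refine le_trans ?_ hc
    unfold cost
    exact card_biUnion_le
  set F := Xs.biUnion id with hF
  -- a vertex in two tokens is a boundary vertex
  have htwo : ∀ P ∈ Xs, ∀ Q ∈ Xs, P ≠ Q → ∀ v ∈ vs P, v ∈ vs Q → v ∈ B := by
    intro P hP Q hQ hne v hvP hvQ
    rw [hB, mem_biUnion]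
    refine ⟨P, hP, ?_⟩
    rw [mem_bd]
    rw [mem_vs] at hvQ
    obtain ⟨e, he, h⟩ := hvQ
    exact ⟨hvP, e, (hX Q hQ).1 he, disjoint_right.mp (hd P hP Q hQ hne) he, h⟩
  set K := Xs.image (fun P => vs P \ B) with hK
  have hKtw : TW G t (K.biUnion id) := by
    refine tw_biUnion K ?_ ?_
    · intro S hS
      rw [hK, mem_image] at hS
      obtain ⟨P, hP, rfl⟩ := hS
      exact (hX P hP).2.2.subset sdiff_subset
    · intro S hS S' hS' hne
      rw [hK, mem_image] at hS hS'
      obtain ⟨P, hP, rfl⟩ := hS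
      obtain ⟨Q, hQ, rfl⟩ := hS'
      have hPQ : P ≠ Q := fun h => hne (by rw [h])
      refine ⟨?_, ?_⟩
      · rw [disjoint_left]
        intro v hv hv'
        rw [mem_sdiff] at hv hv'
        exact hv.2 (htwo P hP Q hQ hPQ v hv.1 hv'.1)
      · rintro ⟨u, hu, v, hv, huv⟩
        rw [mem_sdiff] at hu hv
        have hub : u ∉ bd G P := fun h => hu.2 (mem_biUnion.mpr ⟨P, hP, h⟩)
        have hvP := nbr_of_not_bd hu.1 hub huv
        exact hv.2 (htwo P hP Q hQ hPQ v hvP hv.1)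
  have hFtw : TW G (t + s) (vs F) := by
    refine ((hKtw.add (X := B)).mono (by omega)).subset ?_
    intro v hv
    rw [mem_union]
    by_cases hvB : v ∈ B
    · exact Or.inr hvB
    · left
      rw [mem_vs] at hv
      obtain ⟨e, he, h⟩ := hv
      rw [hF, mem_biUnion] at he
      obtain ⟨P, hP, heP⟩ := he
      rw [mem_biUnion]
      refine ⟨vs P \ B, mem_image_of_mem _ hP, ?_⟩
      exact mem_sdiff.mpr ⟨mem_vs.mpr ⟨e, heP, h⟩, hvB⟩
  have hbdF : bd G F ⊆ B := bd_biUnion Xs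
  have hbdc : (bd G F).card ≤ s := (card_le_card hbdF).trans hBc
  have hSepr : Sepr G (vs F \ bd G F) (bd G F) := by
    intro v hv u huv
    rw [mem_sdiff] at hv
    have := nbr_of_not_bd hv.1 hv.2 huv
    rw [mem_union, mem_sdiff]
    by_cases h : u ∈ bd G F
    · exact Or.inr h
    · exact Or.inl ⟨this, h⟩
  have := gap hw' H hSepr hbdc (hFtw.subset sdiff_subset) (by omega)
  rwa [sdiff_union_of_subset bd_sub] at this

end Pool.Agent.H77TW
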