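import Pool.Agent.Lib.H77TW.Redec
import Pool.Agent.Lib.H77TW.Region
import Pool.Agent.Lib.H77TW.Small

/-!
# Splitting graphs of large treewidth (project MP_14fa4b_co)

Optimal partitions into tokens, double counting, grouping, and the main theorem.
-/

set_option autoImplicit false

namespace Pool.Agent.H77TW

open Finset Pool.Agent.H66TW

variable {V : Type*} [DecidableEq V] [Fintype V] {G : SimpleGraph V}

/-- an optimal partition -/
theorem exists_opt {p t n : ℕ} {A : Finset (V × V)} (h : HasCost G p t A n) :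
    ∃ Ps, Par G p t A Ps ∧ cost G Ps ≤ n ∧ ∀ k, HasCost G p t A k → cost G Ps ≤ k := by
  classical
  have hex : ∃ k, HasCost G p t A k := ⟨n, h⟩
  obtain ⟨Ps, hP, hc⟩ := Nat.find_spec hex
  exact ⟨Ps, hP, hc.trans (Nat.find_min' hex h), fun k hk => hc.trans (Nat.find_min' hex hk)⟩

/-- sub-collections of an optimal partition are optimal -/
theorem opt_sub {p t n : ℕ} {A : Finset (V × V)} {Ps Xs : Finset (Finset (V × V))}
    (hP : Par G p t A Ps) (hopt : ∀ k, HasCost G p t A k → cost G Ps ≤ k) (hX : Xs ⊆ Ps)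
    (h : HasCost G p t (Xs.biUnion id) n) : cost G Xs ≤ n := by
  classical
  have h1 : HasCost G p t ((Ps \ Xs).biUnion id) (cost G (Ps \ Xs)) := by
    refine ⟨Ps \ Xs, ⟨rfl, ?_, ?_⟩, le_refl _⟩
    · intro P hP1 Q hQ1 hne
      exact hP.dis P (mem_sdiff.mp hP1).1 Q (mem_sdiff.mp hQ1).1 hne
    · intro P hP1
      exact hP.tok P (mem_sdiff.mp hP1).1
  have hd : Disjoint ((Ps \ Xs).biUnion id) (Xs.biUnion id) := by
    rw [disjoint_left]
    intro e he he'
    rw [mem_biUnion] at he he'
    obtain ⟨P, hP1, heP⟩ := he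
    obtain ⟨Q, hQ1, heQ⟩ := he'
    rw [mem_sdiff] at hP1
    have hne : P ≠ Q := fun h => hP1.2 (h ▸ hQ1)
    exact (disjoint_left.mp (hP.dis P hP1.1 Q (hX hQ1) hne)) heP heQ
  have h2 := h1.union hd h
  have h3 : (Ps \ Xs).biUnion id ∪ Xs.biUnion id = A := by
    rw [← union_biUnion, sdiff_union_of_subset hX]
    exact hP.un
  rw [h3] at h2
  have h4 := hopt _ h2
  have h5 : cost G (Ps \ Xs) + cost G Xs = cost G Ps := by
    unfold cost
    exact sum_sdiff hX
  omega

/-- double counting of boundary incidences -/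
theorem double_count {p t : ℕ} {A : Finset (V × V)} {Ps : Finset (Finset (V × V))}
    (hP : Par G p t A Ps) (hA : A ⊆ edg G) :
    2 * (Ps.biUnion (bd G)).card ≤ cost G Ps + (bd G A).card := by
  classical
  have h1 : cost G Ps = ∑ v ∈ Ps.biUnion (bd G), (Ps.filter (fun P => v ∈ bd G P)).card := by
    unfold cost
    have e1 : ∀ P ∈ Ps, (bd G P).card = ∑ v ∈ Ps.biUnion (bd G), if v ∈ bd G P then 1 else 0 := by
      intro P hP1
      rw [sum_ite_mem, inter_eq_right.mpr (subset_biUnion_of_mem (bd G) hP1)]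
      simp
    rw [sum_congr rfl e1, sum_comm]
    apply sum_congr rfl
    intro v _
    rw [card_filter]
  have h2 : ∀ v ∈ Ps.biUnion (bd G),
      2 ≤ (Ps.filter (fun P => v ∈ bd G P)).card + (if v ∈ bd G A then 1 else 0) := by
    intro v hv
    rw [mem_biUnion] at hv
    obtain ⟨P, hP1, hvP⟩ := hv
    by_cases hvA : v ∈ bd G A
    · have : 0 < (Ps.filter (fun P => v ∈ bd G P)).card :=
        card_pos.mpr ⟨P, mem_filter.mpr ⟨hP1, hvP⟩⟩
      rw [if_pos hvA]
      omega
    · rw [if_neg hvA]
      have hvP' := hvP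
      rw [mem_bd] at hvP'
      obtain ⟨hvs, e, he, heP, hev⟩ := hvP'
      have hPA : P ⊆ A := hP.un ▸ subset_biUnion_of_mem id hP1
      have heA : e ∈ A := by
        by_contra hcon
        exact hvA (mem_bd.mpr ⟨vs_mono hPA hvs, e, he, hcon, hev⟩)
      rw [← hP.un, mem_biUnion] at heA
      obtain ⟨Q, hQ1, heQ⟩ := heA
      have heQ' : e ∈ Q := heQ
      have hne : P ≠ Q := fun h => heP (h ▸ heQ')
      have hvQ : v ∈ bd G Q := by
        rw [mem_vs] at hvs
        obtain ⟨e', he', hev'⟩ := hvs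
        rw [mem_bd]
        refine ⟨mem_vs.mpr ⟨e, heQ', hev⟩, e', hA (hPA he'), ?_, hev'⟩
        exact fun h => (disjoint_left.mp (hP.dis P hP1 Q hQ1 hne)) he' h
      have : ({P, Q} : Finset (Finset (V × V))) ⊆ Ps.filter (fun P => v ∈ bd G P) := by
        intro X hX
        rw [mem_insert, mem_singleton] at hX
        rw [mem_filter]
        rcases hX with h | h
        · rw [h]
          exact ⟨hP1, hvP⟩
        · rw [h]
          exact ⟨hQ1, hvQ⟩
      have h3 := card_le_card this
      rw [card_pair hne] at h3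
      omega
  have h3 : 2 * (Ps.biUnion (bd G)).card ≤ ∑ v ∈ Ps.biUnion (bd G),
      ((Ps.filter (fun P => v ∈ bd G P)).card + (if v ∈ bd G A then 1 else 0)) := by
    have := sum_le_sum h2
    rw [sum_const, smul_eq_mul, mul_comm] at this
    exact this
  rw [sum_add_distrib, ← h1, sum_ite_mem] at h3
  have h4 : ∑ v ∈ Ps.biUnion (bd G) ∩ bd G A, 1 ≤ (bd G A).card := by
    rw [sum_const, smul_eq_mul, mul_one]
    exact card_le_card inter_subset_right
  omega

omit [DecidableEq V] [Fintype V] in
/-- packing items into bins -/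
theorem bins {ι : Type*} [DecidableEq ι] (f : ι → ℕ) (m q : ℕ) (hm : 1 ≤ m) (S : Finset ι)
    (hf : ∀ i ∈ S, f i ≤ q) (hS : ∑ i ∈ S, f i ≤ m * q) :
    ∃ g : ι → ℕ, (∀ i ∈ S, g i < m) ∧ ∀ j, ∑ i ∈ S.filter (fun i => g i = j), f i ≤ 2 * q := by
  induction S using Finset.induction_on with
  | empty => exact ⟨fun _ => 0, by simp, by simp⟩
  | insert a S ha ih =>
    rw [sum_insert ha] at hS
    obtain ⟨g, hg1, hg2⟩ := ih (fun i hi => hf i (mem_insert_of_mem hi)) (by omega)
    have hj : ∃ j < m, ∑ i ∈ S.filter (fun i => g i = j), f i ≤ q := by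
      by_contra hcon
      push Not at hcon
      have h1 : ∑ j ∈ range m, ∑ i ∈ S.filter (fun i => g i = j), f i = ∑ i ∈ S, f i :=
        sum_fiberwise_of_maps_to (fun i hi => mem_range.mpr (hg1 i hi)) f
      have h2 : ∑ j ∈ range m, (q + 1) ≤ ∑ j ∈ range m, ∑ i ∈ S.filter (fun i => g i = j), f i :=
        sum_le_sum (fun j hj => hcon j (mem_range.mp hj))
      rw [h1, sum_const, card_range, smul_eq_mul] at h2
      have h3 : m * (q + 1) = m * q + m := by ring
      omega
    obtain ⟨j, hjm, hj⟩ := hj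
    refine ⟨Function.update g a j, ?_, ?_⟩
    · intro i hi
      by_cases hia : i = a
      · rw [hia, Function.update_self]
        exact hjm
      · rw [Function.update_of_ne hia]
        exact hg1 i ((mem_insert.mp hi).resolve_left hia)
    · intro j'
      have hsame : S.filter (fun i => Function.update g a j i = j') =
          S.filter (fun i => g i = j') := by
        apply filter_congr
        intro i hi
        have hia : i ≠ a := fun h => ha (h ▸ hi)
        rw [Function.update_of_ne hia]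
      rw [filter_insert, Function.update_self]
      by_cases hjj : j = j'
      · rw [if_pos hjj, sum_insert (by
          rw [mem_filter]
          exact fun h => ha h.1), hsame, ← hjj]
        have := hf a (mem_insert_self a S)
        omega
      · rw [if_neg hjj, hsame]
        exact hg2 j'

omit [DecidableEq V] [Fintype V] in
/-- Bonferroni inequality -/
theorem bonf {α : Type*} [DecidableEq α] (N : ℕ → Finset α) (m : ℕ) :
    ∑ j ∈ range m, (N j).card ≤ ((range m).biUnion N).card +
      ∑ j ∈ range m, ∑ i ∈ range j, (N i ∩ N j).card := by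
  induction m with
  | zero => simp
  | succ m ih =>
    rw [sum_range_succ, sum_range_succ, range_add_one, biUnion_insert]
    have h1 := card_union_add_card_inter (N m) ((range m).biUnion N)
    have h2 : (N m ∩ (range m).biUnion N).card ≤ ∑ i ∈ range m, (N i ∩ N m).card := by
      have e : N m ∩ (range m).biUnion N = (range m).biUnion (fun i => N i ∩ N m) := by
        ext x
        simp only [mem_inter, mem_biUnion]
        constructor
        · rintro ⟨h, i, hi, h'⟩
          exact ⟨i, hi, h', h⟩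
        · rintro ⟨i, hi, h', h⟩
          exact ⟨h, i, hi, h'⟩
      rw [e]
      exact card_biUnion_le
    omega

omit [DecidableEq V] [Fintype V] in
theorem pair_sum (w : ℕ → ℕ) (m : ℕ) :
    ∑ j ∈ range m, w j + ∑ j ∈ range m, ∑ i ∈ range j, (w i + w j) = m * ∑ j ∈ range m, w j := by
  induction m with
  | zero => simp
  | succ m ih =>
    have e : ∑ i ∈ range m, (w i + w m) = ∑ i ∈ range m, w i + m * w m := by
      rw [sum_add_distrib, sum_const, card_range, smul_eq_mul]
    rw [sum_range_succ, sum_range_succ, e]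
    have : (m + 1) * (∑ j ∈ range m, w j + w m) =
        m * ∑ j ∈ range m, w j + ∑ j ∈ range m, w j + m * w m + w m := by ring
    omega

omit [Fintype V] in
/-- isolated vertices do not matter -/
theorem tw_isolated {b : ℕ} (hb : 1 ≤ b) {S : Finset V} (hS : TW G b S) (I : Finset V)
    (hI : ∀ v ∈ I, ∀ u, ¬ G.Adj v u) : TW G b (S ∪ I) := by
  induction I using Finset.induction_on with
  | empty => rwa [union_empty]
  | insert a I ha ih =>
    have h1 := ih (fun v hv => hI v (mem_insert_of_mem hv))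
    by_cases haS : a ∈ S ∪ I
    · have : S ∪ insert a I = S ∪ I := by
        rw [union_insert, insert_eq_of_mem haS]
      rwa [this]
    · have h2 : TW G b {a} := TW.of_card (by simpa using hb)
      have h3 := TW.union h1 h2 (by
        intro u _ v hv huv
        rw [mem_sdiff, mem_singleton] at hv
        rw [hv.1] at huv
        exact hI a (mem_insert_self a I) u huv.symm) (by
        rw [disjoint_singleton_right]
        exact haS)
      have : S ∪ insert a I = S ∪ I ∪ {a} := by
        ext x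
        simp only [mem_union, mem_insert, mem_singleton]
        tauto
      rwa [this]

/-- **Grouping.** The total boundary of an optimal partition is almost the number of boundary
vertices. -/
theorem group_ineq {p t a q m s : ℕ} {A : Finset (V × V)} {Ps : Finset (Finset (V × V))}
    (hm : 1 ≤ m) (hq : 4 * q ≤ s) (hpq : p ≤ q) (hP : Par G p t A Ps)
    (hW : cost G Ps ≤ m * q)
    (hineq : ∀ Xs ⊆ Ps, cost G Xs ≤ s →
      a * cost G Xs ≤ (a + 9 * t) * (Xs.biUnion (bd G)).card) :
    a * cost G Ps ≤ a * (Ps.biUnion (bd G)).card + 9 * t * (m * cost G Ps) := by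
  classical
  obtain ⟨g, hg1, hg2⟩ := bins (fun P => (bd G P).card) m q hm Ps
    (fun P h => (hP.tok P h).1.trans hpq) hW
  set X : ℕ → Finset (Finset (V × V)) := fun j => Ps.filter (fun P => g P = j) with hX
  set N : ℕ → Finset V := fun j => (X j).biUnion (bd G) with hN
  set w : ℕ → ℕ := fun j => cost G (X j) with hw
  have hXs : ∀ j, X j ⊆ Ps := fun j => filter_subset _ _
  have hw2 : ∀ j, w j ≤ 2 * q := fun j => hg2 j
  have hnw : ∀ j, (N j).card ≤ w j := fun j => card_biUnion_le
  have hW' : ∑ j ∈ range m, w j = cost G Ps :=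
    sum_fiberwise_of_maps_to (fun P h => mem_range.mpr (hg1 P h)) _
  have hNU : (range m).biUnion N = Ps.biUnion (bd G) := by
    ext v
    simp only [hN, hX, mem_biUnion, mem_range, mem_filter]
    constructor
    · rintro ⟨j, _, P, hP1, hv⟩
      exact ⟨P, hP1.1, hv⟩
    · rintro ⟨P, hP1, hv⟩
      exact ⟨g P, hg1 P hP1, P, ⟨hP1, rfl⟩, hv⟩
  have h1 : ∀ j, a * w j ≤ a * (N j).card + 9 * t * w j := by
    intro j
    have e1 := hineq (X j) (hXs j) (by
      have := hw2 j
      change w j ≤ s
      omega)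
    calc a * w j ≤ (a + 9 * t) * (N j).card := e1
      _ = a * (N j).card + 9 * t * (N j).card := by ring
      _ ≤ a * (N j).card + 9 * t * w j := Nat.add_le_add_left (Nat.mul_le_mul_left _ (hnw j)) _
  have h2 : ∀ j, ∀ i ∈ range j, a * (N i ∩ N j).card ≤ 9 * t * (w i + w j) := by
    intro j i hi
    have hij : i ≠ j := (mem_range.mp hi).ne
    have hdisj : Disjoint (X i) (X j) := by
      rw [disjoint_left]
      intro P h h'
      simp only [hX, mem_filter] at h h'
      exact hij (h.2.symm.trans h'.2)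
    have hc : cost G (X i ∪ X j) = w i + w j := by
      simp only [hw, cost]
      exact sum_union hdisj
    have hB : (X i ∪ X j).biUnion (bd G) = N i ∪ N j := by
      rw [union_biUnion]
    have e1 := hineq (X i ∪ X j) (union_subset (hXs i) (hXs j)) (by
      have := hw2 i
      have := hw2 j
      omega)
    rw [hc, hB] at e1
    have e2 := card_union_add_card_inter (N i) (N j)
    have e3 := hnw i
    have e4 := hnw j
    have e5 : (N i ∪ N j).card ≤ w i + w j := by omega
    have e6 : a * ((N i ∪ N j).card + (N i ∩ N j).card) ≤ a * (w i + w j) :=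
      Nat.mul_le_mul_left _ (by omega)
    have e7 : (a + 9 * t) * (N i ∪ N j).card ≤ a * (N i ∪ N j).card + 9 * t * (w i + w j) := by
      calc (a + 9 * t) * (N i ∪ N j).card =
          a * (N i ∪ N j).card + 9 * t * (N i ∪ N j).card := by ring
        _ ≤ _ := Nat.add_le_add_left (Nat.mul_le_mul_left _ e5) _
    have e8 : a * ((N i ∪ N j).card + (N i ∩ N j).card) =
        a * (N i ∪ N j).card + a * (N i ∩ N j).card := by ring
    omega
  have h3 := bonf N m
  rw [hNU] at h3
  have h4 := pair_sum w m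
  rw [hW'] at h4
  calc a * cost G Ps = ∑ j ∈ range m, a * w j := by rw [← hW', mul_sum]
    _ ≤ ∑ j ∈ range m, (a * (N j).card + 9 * t * w j) := sum_le_sum (fun j _ => h1 j)
    _ = a * ∑ j ∈ range m, (N j).card + 9 * t * ∑ j ∈ range m, w j := by
        rw [sum_add_distrib, mul_sum, mul_sum]
    _ ≤ a * ((Ps.biUnion (bd G)).card + ∑ j ∈ range m, ∑ i ∈ range j, (N i ∩ N j).card) +
          9 * t * ∑ j ∈ range m, w j :=
        Nat.add_le_add_right (Nat.mul_le_mul_left _ h3) _
    _ = a * (Ps.biUnion (bd G)).card +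
          (∑ j ∈ range m, ∑ i ∈ range j, a * (N i ∩ N j).card) +
          9 * t * ∑ j ∈ range m, w j := by
        rw [mul_add, mul_sum]
        simp_rw [mul_sum]
    _ ≤ a * (Ps.biUnion (bd G)).card +
          (∑ j ∈ range m, ∑ i ∈ range j, 9 * t * (w i + w j)) +
          9 * t * ∑ j ∈ range m, w j := by
        refine Nat.add_le_add_right (Nat.add_le_add_left ?_ _) _
        exact sum_le_sum (fun j _ => sum_le_sum (h2 j))
    _ = a * (Ps.biUnion (bd G)).card + 9 * t * (∑ j ∈ range m, w j +
          ∑ j ∈ range m, ∑ i ∈ range j, (w i + w j)) := by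
        simp_rw [← mul_sum]
        ring
    _ = a * (Ps.biUnion (bd G)).card + 9 * t * (m * cost G Ps) := by rw [hW', h4]

/-- the contradiction -/
theorem no_region {p t a q m s w : ℕ} (ht : 2 ≤ t) (hw' : ¬ TW G (w - 1) univ)
    (H : ∀ D, TW G t D ∨ TW G (w - s - 1) Dᶜ) (hs : t + 2 * s < w)
    (hm : 1 ≤ m) (hq : 4 * q ≤ s) (ha : a = 25 * t * m) (hp : p = 2 * a + 4 * t) (hpq : p ≤ q)
    {A : Finset (V × V)} (hA : A ⊆ edg G) (hcA : HasCost G p t A (m * q))
    (h4 : ∀ n, HasCost G p t A n → 4 * (bd G A).card ≤ n)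
    (h0 : ∀ n, HasCost G p t A n → 0 < n) : False := by
  obtain ⟨Ps, hP, hc, hopt⟩ := exists_opt hcA
  have hHas : HasCost G p t A (cost G Ps) := ⟨Ps, hP, le_refl _⟩
  have hineq : ∀ Xs ⊆ Ps, cost G Xs ≤ s →
      a * cost G Xs ≤ (a + 9 * t) * (Xs.biUnion (bd G)).card := by
    intro Xs hX hXs
    have hsub : ∀ P ∈ Xs, P ⊆ edg G := fun P h =>
      ((subset_biUnion_of_mem id (hX h)).trans (hP.un ▸ Subset.refl _)).trans hA
    have h1 : TW G t (vs (Xs.biUnion id)) := tw_small hw' H hs
      (fun P h => ⟨hsub P h, hP.tok P (hX h)⟩)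
      (fun P h Q h' hne => hP.dis P (hX h) Q (hX h') hne) hXs
    have h2 : Xs.biUnion id ⊆ edg G := by
      rw [biUnion_subset]
      exact hsub
    obtain ⟨n, hn1, hn2⟩ := redec (a := a) (p := p) (t := t) (by omega) h2 h1
    calc a * cost G Xs ≤ a * n := Nat.mul_le_mul_left _ (opt_sub hP hopt hX hn1)
      _ ≤ (a + 9 * t) * (bd G (Xs.biUnion id)).card := hn2
      _ ≤ (a + 9 * t) * (Xs.biUnion (bd G)).card :=
          Nat.mul_le_mul_left _ (card_le_card (bd_biUnion Xs))
  have h1 := group_ineq hm hq hpq hP hc hineq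
  have h2 := double_count hP hA
  have h3 := h4 _ hHas
  have h5 := h0 _ hHas
  set W := cost G Ps
  set n := (Ps.biUnion (bd G)).card
  set B := (bd G A).card
  have e1 : a * (2 * n) ≤ a * (W + B) := Nat.mul_le_mul_left _ h2
  have e2 : a * (4 * B) ≤ a * W := Nat.mul_le_mul_left _ h3
  have e3 : a * W = 25 * (t * m * W) := by rw [ha]; ring
  have e4 : 9 * t * (m * W) = 9 * (t * m * W) := by ring
  have e5 : a * (2 * n) = 2 * (a * n) := by ring
  have e6 : a * (W + B) = a * W + a * B := by ring
  have e7 : a * (4 * B) = 4 * (a * B) := by ring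
  have e8 : 0 < t * m * W := Nat.mul_pos (Nat.mul_pos (by omega) hm) h5
  rw [e4] at h1
  omega

/-- the splitting theorem with parameters -/
theorem split_core {t q m s w : ℕ} (ht : 2 ≤ t) (hw : TW G w univ) (hw' : ¬ TW G (w - 1) univ)
    (hs : t + 2 * s < w) (hm : 1 ≤ m) (hq : 4 * q ≤ s) (hpq : 50 * t * m + 4 * t ≤ q)
    (hmq : 8 * w + 2 ≤ m * q) : ∃ D : Finset V, ¬ TW G t D ∧ ¬ TW G (w - s - 1) Dᶜ := by
  by_contra hcon
  have H : ∀ D, TW G t D ∨ TW G (w - s - 1) Dᶜ := by
    intro D
    by_contra h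
    rw [not_or] at h
    exact hcon ⟨D, h.1, h.2⟩
  have hp' : 2 * (25 * t * m) + 4 * t ≤ q := by
    have : 2 * (25 * t * m) = 50 * t * m := by ring
    omega
  rcases exists_region (G := G) (p := 2 * (25 * t * m) + 4 * t) (t := t) (by omega) ht hw
    (4 * w) with h | ⟨A, hA, h1, h2, h3⟩
  · refine no_region (a := 25 * t * m) ht hw' H hs hm hq rfl rfl hp' (Subset.refl (edg G))
      (h.mono (by omega)) ?_ ?_
    · intro n _
      have : bd G (edg G) = ∅ := by
        unfold bd
        rw [sdiff_eq_empty_iff_subset.mpr (Subset.refl (edg G)), vs_empty, inter_empty]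
      rw [this, card_empty]
      omega
    · intro n hn
      by_contra hn0
      obtain ⟨Ps, hP, hc⟩ := hn
      have h1 : TW G t (vs (Ps.biUnion id)) := tw_small hw' H hs
        (fun P h => ⟨hP.un ▸ subset_biUnion_of_mem id h, hP.tok P h⟩)
        (fun P h Q h' hne => hP.dis P h Q h' hne) (by omega)
      rw [hP.un] at h1
      have h2 := tw_isolated (by omega) h1 (univ \ vs (edg G)) (by
        intro v hv u huv
        rw [mem_sdiff] at hv
        exact hv.2 (mem_vs.mpr ⟨(v, u), mem_edg.mpr huv, Or.inl rfl⟩))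
      rw [union_sdiff_of_subset (subset_univ _)] at h2
      exact hw' (h2.mono (by omega))
  · refine no_region (a := 25 * t * m) ht hw' H hs hm hq rfl rfl hp' hA
      (h3.mono (by omega)) ?_ ?_
    · intro n hn
      by_contra hlt
      exact h2 (hn.mono (by omega))
    · intro n hn
      by_contra hlt
      exact h2 (hn.mono (by omega))

/-- **Splitting theorem.** -/
theorem split3 {t s w : ℕ} (ht : 2 ≤ t) (hw : TW G w univ) (hw' : ¬ TW G (w - 1) univ)
    (hs : t + 2 * s < w) (hC : 35000 * t * w ≤ s ^ 2) :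
    ∃ D : Finset V, ¬ TW G t D ∧ ¬ TW G (w - s - 1) Dᶜ := by
  have hw0 : 1 ≤ w := by omega
  have hs4 : 4 ≤ s := by
    by_contra hlt
    have h1 : s ^ 2 ≤ 3 ^ 2 := Nat.pow_le_pow_left (by omega) 2
    have h2 : 35000 * 2 * 1 ≤ 35000 * t * w := Nat.mul_le_mul (Nat.mul_le_mul_left _ ht) hw0
    omega
  set q := s / 4 with hq
  have hq4 : 4 * q ≤ s := Nat.mul_div_le s 4
  have hq8 : s ≤ 8 * q := by omega
  have hq1 : 1 ≤ q := by omega
  set m := (8 * w + 2) / q + 1 with hm
  have hm1 : 1 ≤ m := Nat.le_add_left 1 _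
  have hmq : 8 * w + 2 ≤ m * q := by
    have := Nat.lt_mul_div_succ (8 * w + 2) (show 0 < q by omega)
    calc 8 * w + 2 ≤ q * ((8 * w + 2) / q + 1) := this.le
      _ = m * q := by rw [hm, Nat.mul_comm]
  have hms : m * s ≤ 81 * w := by
    have e1 : q * ((8 * w + 2) / q) ≤ 8 * w + 2 := Nat.mul_div_le _ _
    calc m * s = (8 * w + 2) / q * s + s := by rw [hm]; ring
      _ ≤ (8 * w + 2) / q * (8 * q) + s := Nat.add_le_add_right (Nat.mul_le_mul_left _ hq8) _
      _ = 8 * (q * ((8 * w + 2) / q)) + s := by ring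
      _ ≤ 8 * (8 * w + 2) + s := Nat.add_le_add_right (Nat.mul_le_mul_left _ e1) _
      _ ≤ 81 * w := by omega
  refine split_core ht hw hw' hs hm1 hq4 ?_ hmq
  have e1 : 8 * s * (50 * t * m + 4 * t) ≤ 8 * s * q := by
    calc 8 * s * (50 * t * m + 4 * t) ≤ 8 * s * (50 * t * m + 4 * (t * m)) := by
          refine Nat.mul_le_mul_left _ (Nat.add_le_add_left (Nat.mul_le_mul_left _ ?_) _)
          exact Nat.le_mul_of_pos_right t hm1
      _ = 432 * t * (m * s) := by ring
      _ ≤ 432 * t * (81 * w) := Nat.mul_le_mul_left _ hms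
      _ = 34992 * t * w := by ring
      _ ≤ 35000 * t * w := Nat.mul_le_mul_right _ (Nat.mul_le_mul_right _ (by norm_num))
      _ ≤ s ^ 2 := hC
      _ = s * s := by ring
      _ ≤ s * (8 * q) := Nat.mul_le_mul_left _ hq8
      _ = 8 * s * q := by ring
  exact Nat.le_of_mul_le_mul_left e1 (by omega)

end Pool.Agent.H77TW
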