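import Pool.Agent.Lib.H77TW.Edge

/-!
# Redecomposition: an edge set of small treewidth can be cut into tokens at small relative cost
(project MP_14fa4b_co)
-/

set_option autoImplicit false

namespace Pool.Agent.H77TW

open Finset Pool.Agent.H66TW

variable {V : Type*} [DecidableEq V] [Fintype V] {G : SimpleGraph V}

/-- State of the redecomposition below a root bag `β`: closed tokens `Qs`, open part `R`, lower
bag `Z`, consumed boundary vertices `Y`, number `k` of closings, indicator `z` of `Z`. -/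
structure St (G : SimpleGraph V) (a b p : ℕ) (X D β : Finset V) (F : Finset (V × V))
    (Qs : Finset (Finset (V × V))) (R : Finset (V × V)) (Z Y : Finset V) (k z : ℕ) : Prop where
  un : Qs.biUnion id ∪ R = F
  dis : ∀ P ∈ Qs, ∀ Q ∈ Qs, P ≠ Q → Disjoint P Q
  disR : ∀ P ∈ Qs, Disjoint P R
  bp : ∀ P ∈ Qs, (bd G P).card ≤ p
  RZ : ∀ v ∈ vs R, v ∈ vs (Qs.biUnion id) → v ∈ Z
  bZ : ∀ v ∈ β, v ∈ vs (Qs.biUnion id) → v ∈ Z
  Zc : Z.card ≤ z * b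
  z1 : z ≤ 1
  x : ((X ∩ vs R) \ (β ∪ Z)).card ≤ a
  YX : Y ⊆ X ∩ D
  Yβ : Disjoint Y β
  YR : Disjoint Y (vs R)
  acc : a * (k + z) ≤ 2 * Y.card
  cst : cost G Qs ≤ Y.card + 3 * b * k

/-- the boundary of an open part -/
theorem open_bd {Ft F R : Finset (V × V)} {Qs : Finset (Finset (V × V))} {D β Z : Finset V}
    (hF : F ⊆ Ft) (hD : vs F ⊆ D)
    (hcl : ∀ v ∈ D, v ∉ β → ∀ e ∈ Ft, (e.1 = v ∨ e.2 = v) → e ∈ F)
    (hun : Qs.biUnion id ∪ R = F) (hRZ : ∀ v ∈ vs R, v ∈ vs (Qs.biUnion id) → v ∈ Z) :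
    bd G R ⊆ ((bd G Ft ∩ vs R) \ (β ∪ Z)) ∪ (β ∪ Z) := by
  intro v hv
  rw [mem_bd] at hv
  obtain ⟨hvR, e, he, heR, hev⟩ := hv
  rw [mem_union]
  by_cases hvB : v ∈ β ∪ Z
  · exact Or.inr hvB
  left
  rw [mem_sdiff, mem_inter]
  refine ⟨⟨?_, hvR⟩, hvB⟩
  have hRF : R ⊆ F := hun ▸ subset_union_right
  have hvF : v ∈ vs F := vs_mono hRF hvR
  rw [mem_union, not_or] at hvB
  rw [mem_bd]
  refine ⟨vs_mono hF hvF, e, he, ?_, hev⟩
  intro heFt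
  have heF := hcl v (hD hvF) hvB.1 e heFt hev
  rw [← hun, mem_union] at heF
  rcases heF with h | h
  · exact hvB.2 (hRZ v hvR (mem_vs.mpr ⟨e, h, hev⟩))
  · exact heR h

omit [Fintype V] in
theorem vs_biUnion_union {Ps Qs : Finset (Finset (V × V))} :
    vs ((Ps ∪ Qs).biUnion id) = vs (Ps.biUnion id) ∪ vs (Qs.biUnion id) := by
  rw [union_biUnion, vs_union]

theorem cost_union_le (Ps Qs : Finset (Finset (V × V))) :
    cost G (Ps ∪ Qs) ≤ cost G Ps + cost G Qs := by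
  unfold cost
  have h1 := sum_union_inter (s₁ := Ps) (s₂ := Qs) (f := fun P => (bd G P).card)
  omega

section Glue

variable {a b p : ℕ} {Ft F F₁ F₂ R₁ R₂ : Finset (V × V)} {D₁ β₁ D₂ β₂ Z₁ Z₂ Y₁ Y₂ : Finset V}
  {Qs₁ Qs₂ : Finset (Finset (V × V))} {k₁ z₁ k₂ z₂ : ℕ}

/-- the common facts about the union of two states -/
theorem glue_RZ (hb1 : β₁ ⊆ D₁) (h3 : D₁ ∩ D₂ ⊆ β₁ ∩ β₂) (hF1 : vs F₁ ⊆ D₁) (hF2 : vs F₂ ⊆ D₂)
    (s1 : St G a b p (bd G Ft) D₁ β₁ F₁ Qs₁ R₁ Z₁ Y₁ k₁ z₁)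
    (s2 : St G a b p (bd G Ft) D₂ β₂ F₂ Qs₂ R₂ Z₂ Y₂ k₂ z₂) :
    (∀ v ∈ vs (R₁ ∪ R₂), v ∈ vs ((Qs₁ ∪ Qs₂).biUnion id) → v ∈ Z₁ ∪ Z₂) ∧
    (∀ v ∈ β₁, v ∈ vs ((Qs₁ ∪ Qs₂).biUnion id) → v ∈ Z₁ ∪ Z₂) := by
  have r1 : vs R₁ ⊆ D₁ := (vs_mono (s1.un ▸ subset_union_right)).trans hF1
  have r2 : vs R₂ ⊆ D₂ := (vs_mono (s2.un ▸ subset_union_right)).trans hF2
  have q1 : vs (Qs₁.biUnion id) ⊆ D₁ := (vs_mono (s1.un ▸ subset_union_left)).trans hF1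
  have q2 : vs (Qs₂.biUnion id) ⊆ D₂ := (vs_mono (s2.un ▸ subset_union_left)).trans hF2
  constructor
  · intro v hv hv'
    rw [vs_union, mem_union] at hv
    rw [vs_biUnion_union, mem_union] at hv'
    rw [mem_union]
    rcases hv with h | h <;> rcases hv' with h' | h'
    · exact Or.inl (s1.RZ v h h')
    · have := h3 (mem_inter.mpr ⟨r1 h, q2 h'⟩)
      exact Or.inr (s2.bZ v (mem_inter.mp this).2 h')
    · have := h3 (mem_inter.mpr ⟨q1 h', r2 h⟩)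
      exact Or.inl (s1.bZ v (mem_inter.mp this).1 h')
    · exact Or.inr (s2.RZ v h h')
  · intro v hv hv'
    rw [vs_biUnion_union, mem_union] at hv'
    rw [mem_union]
    rcases hv' with h' | h'
    · exact Or.inl (s1.bZ v hv h')
    · have := h3 (mem_inter.mpr ⟨hb1 hv, q2 h'⟩)
      exact Or.inr (s2.bZ v (mem_inter.mp this).2 h')

theorem glue_dis (hd : Disjoint F₁ F₂)
    (s1 : St G a b p (bd G Ft) D₁ β₁ F₁ Qs₁ R₁ Z₁ Y₁ k₁ z₁)
    (s2 : St G a b p (bd G Ft) D₂ β₂ F₂ Qs₂ R₂ Z₂ Y₂ k₂ z₂) :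
    (∀ P ∈ Qs₁ ∪ Qs₂, ∀ Q ∈ Qs₁ ∪ Qs₂, P ≠ Q → Disjoint P Q) ∧
    (∀ P ∈ Qs₁ ∪ Qs₂, Disjoint P (R₁ ∪ R₂)) := by
  have r1 : R₁ ⊆ F₁ := s1.un ▸ subset_union_right
  have r2 : R₂ ⊆ F₂ := s2.un ▸ subset_union_right
  have q1 : ∀ P ∈ Qs₁, P ⊆ F₁ := fun P hP =>
    (subset_biUnion_of_mem id hP).trans (s1.un ▸ subset_union_left)
  have q2 : ∀ P ∈ Qs₂, P ⊆ F₂ := fun P hP =>
    (subset_biUnion_of_mem id hP).trans (s2.un ▸ subset_union_left)
  constructor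
  · intro P hP Q hQ hne
    rcases mem_union.mp hP with h | h <;> rcases mem_union.mp hQ with h' | h'
    · exact s1.dis P h Q h' hne
    · exact disjoint_of_subset_left (q1 P h) (disjoint_of_subset_right (q2 Q h') hd)
    · exact disjoint_of_subset_left (q2 P h) (disjoint_of_subset_right (q1 Q h') hd.symm)
    · exact s2.dis P h Q h' hne
  · intro P hP
    rw [disjoint_union_right]
    rcases mem_union.mp hP with h | h
    · exact ⟨s1.disR P h, disjoint_of_subset_left (q1 P h) (disjoint_of_subset_right r2 hd)⟩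
    · exact ⟨disjoint_of_subset_left (q2 P h) (disjoint_of_subset_right r1 hd.symm),
        s2.disR P h⟩

theorem glue_Y (h3 : D₁ ∩ D₂ ⊆ β₁ ∩ β₂) (hb1 : β₁ ⊆ D₁) (hF1 : vs F₁ ⊆ D₁) (hF2 : vs F₂ ⊆ D₂)
    (s1 : St G a b p (bd G Ft) D₁ β₁ F₁ Qs₁ R₁ Z₁ Y₁ k₁ z₁)
    (s2 : St G a b p (bd G Ft) D₂ β₂ F₂ Qs₂ R₂ Z₂ Y₂ k₂ z₂) :
    Disjoint Y₁ Y₂ ∧ Y₁ ∪ Y₂ ⊆ bd G Ft ∩ (D₁ ∪ D₂) ∧ Disjoint (Y₁ ∪ Y₂) β₁ ∧
    Disjoint (Y₁ ∪ Y₂) (vs (R₁ ∪ R₂)) := by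
  have r1 : vs R₁ ⊆ D₁ := (vs_mono (s1.un ▸ subset_union_right)).trans hF1
  have r2 : vs R₂ ⊆ D₂ := (vs_mono (s2.un ▸ subset_union_right)).trans hF2
  have y1 : ∀ v ∈ Y₁, v ∈ D₁ ∧ v ∉ β₁ ∧ v ∉ D₂ := by
    intro v hv
    have h1 := (mem_inter.mp (s1.YX hv)).2
    have h2 : v ∉ β₁ := fun h => (disjoint_left.mp s1.Yβ) hv h
    exact ⟨h1, h2, fun h => h2 (mem_inter.mp (h3 (mem_inter.mpr ⟨h1, h⟩))).1⟩
  have y2 : ∀ v ∈ Y₂, v ∈ D₂ ∧ v ∉ β₂ ∧ v ∉ D₁ := by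
    intro v hv
    have h1 := (mem_inter.mp (s2.YX hv)).2
    have h2 : v ∉ β₂ := fun h => (disjoint_left.mp s2.Yβ) hv h
    exact ⟨h1, h2, fun h => h2 (mem_inter.mp (h3 (mem_inter.mpr ⟨h, h1⟩))).2⟩
  refine ⟨?_, ?_, ?_, ?_⟩
  · rw [disjoint_left]
    intro v hv hv'
    exact (y1 v hv).2.2 (y2 v hv').1
  · intro v hv
    rw [mem_inter, mem_union]
    rcases mem_union.mp hv with h | h
    · exact ⟨(mem_inter.mp (s1.YX h)).1, Or.inl (y1 v h).1⟩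
    · exact ⟨(mem_inter.mp (s2.YX h)).1, Or.inr (y2 v h).1⟩
  · rw [disjoint_left]
    intro v hv hv'
    rcases mem_union.mp hv with h | h
    · exact (y1 v h).2.1 hv'
    · exact (y2 v h).2.2 (hb1 hv')
  · rw [disjoint_left]
    intro v hv hv'
    rw [vs_union, mem_union] at hv'
    rcases mem_union.mp hv with h | h <;> rcases hv' with h' | h'
    · exact (disjoint_left.mp s1.YR) h h'
    · exact (y1 v h).2.2 (r2 h')
    · exact (y2 v h).2.2 (r1 h')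
    · exact (disjoint_left.mp s2.YR) h h'

/-- no closing -/
theorem glue_open (h3 : D₁ ∩ D₂ ⊆ β₁ ∩ β₂) (hb1 : β₁ ⊆ D₁) (hF1 : vs F₁ ⊆ D₁)
    (hF2 : vs F₂ ⊆ D₂) (hd : Disjoint F₁ F₂)
    (s1 : St G a b p (bd G Ft) D₁ β₁ F₁ Qs₁ R₁ Z₁ Y₁ k₁ z₁)
    (s2 : St G a b p (bd G Ft) D₂ β₂ F₂ Qs₂ R₂ Z₂ Y₂ k₂ z₂) (hz : z₁ + z₂ ≤ 1)
    (hx : ((bd G Ft ∩ vs (R₁ ∪ R₂)) \ (β₁ ∪ (Z₁ ∪ Z₂))).card ≤ a) :
    St G a b p (bd G Ft) (D₁ ∪ D₂) β₁ (F₁ ∪ F₂) (Qs₁ ∪ Qs₂) (R₁ ∪ R₂) (Z₁ ∪ Z₂) (Y₁ ∪ Y₂)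
      (k₁ + k₂) (z₁ + z₂) := by
  obtain ⟨g1, g2⟩ := glue_RZ hb1 h3 hF1 hF2 s1 s2
  obtain ⟨g3, g4⟩ := glue_dis hd s1 s2
  obtain ⟨g5, g6, g7, g8⟩ := glue_Y h3 hb1 hF1 hF2 s1 s2
  refine ⟨?_, g3, g4, ?_, g1, g2, ?_, hz, hx, g6, g7, g8, ?_, ?_⟩
  · rw [union_biUnion, ← s1.un, ← s2.un]
    ext e
    simp only [mem_union]
    tauto
  · intro P hP
    rcases mem_union.mp hP with h | h
    · exact s1.bp P h
    · exact s2.bp P h
  · have := card_union_le Z₁ Z₂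
    have := s1.Zc
    have := s2.Zc
    rw [Nat.add_mul]
    omega
  · rw [card_union_of_disjoint g5]
    have h1 := s1.acc
    have h2 := s2.acc
    calc a * (k₁ + k₂ + (z₁ + z₂)) = a * (k₁ + z₁) + a * (k₂ + z₂) := by ring
      _ ≤ _ := by omega
  · rw [card_union_of_disjoint g5]
    have h1 := s1.cst
    have h2 := s2.cst
    have h3 := cost_union_le (G := G) Qs₁ Qs₂
    have h4 : 3 * b * (k₁ + k₂) = 3 * b * k₁ + 3 * b * k₂ := by ring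
    omega

/-- closing at the root -/
theorem glue_close (h3 : D₁ ∩ D₂ ⊆ β₁ ∩ β₂) (hb1 : β₁ ⊆ D₁) (hF1 : vs F₁ ⊆ D₁)
    (hF2 : vs F₂ ⊆ D₂) (hd : Disjoint F₁ F₂) (hFt : F₁ ∪ F₂ ⊆ Ft)
    (hcl : ∀ v ∈ D₁ ∪ D₂, v ∉ β₁ → ∀ e ∈ Ft, (e.1 = v ∨ e.2 = v) → e ∈ F₁ ∪ F₂)
    (hβ1 : β₁.card ≤ b) (hβ2 : β₂.card ≤ b) (hp : 2 * a + 4 * b ≤ p)
    (s1 : St G a b p (bd G Ft) D₁ β₁ F₁ Qs₁ R₁ Z₁ Y₁ k₁ z₁)
    (s2 : St G a b p (bd G Ft) D₂ β₂ F₂ Qs₂ R₂ Z₂ Y₂ k₂ z₂)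
    (hx : z₁ + z₂ ≤ 1 → a < ((bd G Ft ∩ vs (R₁ ∪ R₂)) \ (β₁ ∪ (Z₁ ∪ Z₂))).card) :
    St G a b p (bd G Ft) (D₁ ∪ D₂) β₁ (F₁ ∪ F₂) (insert (R₁ ∪ R₂) (Qs₁ ∪ Qs₂)) ∅ β₁
      (Y₁ ∪ Y₂ ∪ ((bd G Ft ∩ vs (R₁ ∪ R₂)) \ (β₁ ∪ (Z₁ ∪ Z₂)))) (k₁ + k₂ + 1) 1 := by
  obtain ⟨g1, g2⟩ := glue_RZ hb1 h3 hF1 hF2 s1 s2
  obtain ⟨g3, g4⟩ := glue_dis hd s1 s2
  obtain ⟨g5, g6, g7, g8⟩ := glue_Y h3 hb1 hF1 hF2 s1 s2
  have r1 : vs R₁ ⊆ D₁ := (vs_mono (s1.un ▸ subset_union_right)).trans hF1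
  have r2 : vs R₂ ⊆ D₂ := (vs_mono (s2.un ▸ subset_union_right)).trans hF2
  have hun : (Qs₁ ∪ Qs₂).biUnion id ∪ (R₁ ∪ R₂) = F₁ ∪ F₂ := by
    rw [union_biUnion, ← s1.un, ← s2.un]
    ext e
    simp only [mem_union]
    tauto
  have hDD : vs (F₁ ∪ F₂) ⊆ D₁ ∪ D₂ := by
    rw [vs_union]
    exact union_subset_union hF1 hF2
  have hbd := open_bd (G := G) hFt hDD hcl hun g1
  set N := (bd G Ft ∩ vs (R₁ ∪ R₂)) \ (β₁ ∪ (Z₁ ∪ Z₂)) with hN
  have hBc : (β₁ ∪ (Z₁ ∪ Z₂)).card ≤ 3 * b := by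
    have e1 := card_union_le β₁ (Z₁ ∪ Z₂)
    have e2 := card_union_le Z₁ Z₂
    have e3 := s1.Zc
    have e4 := s2.Zc
    have e5 : z₁ * b ≤ 1 * b := Nat.mul_le_mul_right _ s1.z1
    have e6 : z₂ * b ≤ 1 * b := Nat.mul_le_mul_right _ s2.z1
    omega
  have hNc : N.card ≤ 2 * a + b := by
    have e1 : N ⊆ ((bd G Ft ∩ vs R₁) \ (β₁ ∪ Z₁)) ∪
        (((bd G Ft ∩ vs R₂) \ (β₂ ∪ Z₂)) ∪ β₂) := by
      intro v hv
      rw [hN, mem_sdiff, mem_inter, vs_union, mem_union, mem_union, mem_union] at hv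
      simp only [mem_union, mem_sdiff, mem_inter]
      tauto
    have e2 := card_le_card e1
    have e3 := card_union_le ((bd G Ft ∩ vs R₁) \ (β₁ ∪ Z₁))
      (((bd G Ft ∩ vs R₂) \ (β₂ ∪ Z₂)) ∪ β₂)
    have e4 := card_union_le ((bd G Ft ∩ vs R₂) \ (β₂ ∪ Z₂)) β₂
    have e5 := s1.x
    have e6 := s2.x
    omega
  have hbdc : (bd G (R₁ ∪ R₂)).card ≤ N.card + 3 * b := by
    have e1 := card_le_card hbd
    have e2 := card_union_le N (β₁ ∪ (Z₁ ∪ Z₂))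
    omega
  have hNR : N ⊆ vs (R₁ ∪ R₂) := fun v hv => (mem_inter.mp (mem_sdiff.mp hv).1).2
  have hYN : Disjoint (Y₁ ∪ Y₂) N := disjoint_of_subset_right hNR g8
  refine ⟨?_, ?_, ?_, ?_, ?_, ?_, ?_, le_refl 1, ?_, ?_, ?_, ?_, ?_, ?_⟩
  · rw [biUnion_insert, union_empty, ← hun]
    simp only [id]
    rw [union_comm]
  · intro P hP Q hQ hne
    rcases mem_insert.mp hP with h | h <;> rcases mem_insert.mp hQ with h' | h'
    · exact absurd (h.trans h'.symm) hne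
    · rw [h]
      exact (g4 Q h').symm
    · rw [h']
      exact g4 P h
    · exact g3 P h Q h' hne
  · intro P _
    exact disjoint_empty_right P
  · intro P hP
    rcases mem_insert.mp hP with h | h
    · rw [h]
      omega
    · rcases mem_union.mp h with h' | h'
      · exact s1.bp P h'
      · exact s2.bp P h'
  · intro v hv
    rw [vs_empty] at hv
    exact absurd hv (notMem_empty v)
  · intro v hv _
    exact hv
  · omega
  · rw [vs_empty, inter_empty, empty_sdiff, card_empty]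
    exact Nat.zero_le a
  · refine union_subset g6 ?_
    intro v hv
    have h1 := mem_sdiff.mp hv
    refine mem_inter.mpr ⟨(mem_inter.mp h1.1).1, ?_⟩
    have h2 := hNR hv
    rw [vs_union] at h2
    exact (union_subset_union r1 r2) h2
  · rw [disjoint_union_left]
    refine ⟨g7, ?_⟩
    rw [disjoint_left]
    intro v hv hv'
    exact (mem_sdiff.mp hv).2 (mem_union_left _ hv')
  · rw [vs_empty]
    exact disjoint_empty_right _
  · rw [card_union_of_disjoint hYN, card_union_of_disjoint g5]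
    have h1 := s1.acc
    have h2 := s2.acc
    have e0 : a * (k₁ + k₂ + 1 + 1) + a * (z₁ + z₂) = a * (k₁ + z₁) + a * (k₂ + z₂) + 2 * a := by
      ring
    by_cases hz : z₁ + z₂ ≤ 1
    · have := hx hz
      omega
    · have hz1 := s1.z1
      have hz2 := s2.z1
      have hz2 : z₁ + z₂ = 2 := by omega
      rw [hz2] at e0
      omega
  · rw [card_union_of_disjoint hYN, card_union_of_disjoint g5]
    have h1 := s1.cst
    have h2 := s2.cst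
    have h3 := cost_union_le (G := G) Qs₁ Qs₂
    have h4 : 3 * b * (k₁ + k₂ + 1) = 3 * b * k₁ + 3 * b * k₂ + 3 * b := by ring
    have h5 : cost G (insert (R₁ ∪ R₂) (Qs₁ ∪ Qs₂)) ≤
        (bd G (R₁ ∪ R₂)).card + cost G (Qs₁ ∪ Qs₂) := by
      have := cost_union_le (G := G) {R₁ ∪ R₂} (Qs₁ ∪ Qs₂)
      rw [insert_eq]
      refine this.trans ?_
      simp [cost]
    omega

end Glue

/-- a state exists -/
theorem exists_St {a b p : ℕ} (hp : 2 * a + 4 * b ≤ p) {Ft : Finset (V × V)}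
    (hFt : Ft ⊆ edg G) {D β : Finset V} (hT : TD G b D β) :
    ∀ F ⊆ Ft, vs F ⊆ D → (∀ v ∈ D, v ∉ β → ∀ e ∈ Ft, (e.1 = v ∨ e.2 = v) → e ∈ F) →
      ∃ Qs R Z Y k z, St G a b p (bd G Ft) D β F Qs R Z Y k z := by
  induction hT with
  | leaf β hβ =>
    intro F hF hD hcl
    refine ⟨∅, F, ∅, ∅, 0, 0, by simp, by simp, by simp, by simp, by simp [vs_empty],
      by simp [vs_empty], by simp, by simp, ?_, by simp, by simp, by simp, by simp,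
      by simp [cost]⟩
    have : (bd G Ft ∩ vs F) \ (β ∪ ∅) = ∅ := by
      rw [union_empty, sdiff_eq_empty_iff_subset]
      exact inter_subset_right.trans hD
    rw [this, card_empty]
    exact Nat.zero_le a
  | glue D₁ β₁ D₂ β₂ h1 h2 h3 h4 ih1 ih2 =>
    intro F hF hD hcl
    set F₁ := F.filter (fun e => e.1 ∈ D₁ ∧ e.2 ∈ D₁) with hF₁
    have sub1 : F₁ ⊆ F := filter_subset _ _
    have sub2 : F \ F₁ ⊆ F := sdiff_subset
    have v1 : vs F₁ ⊆ D₁ := by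
      intro v hv
      rw [mem_vs] at hv
      obtain ⟨e, he, h⟩ := hv
      rw [hF₁, mem_filter] at he
      rcases h with h | h
      · exact h ▸ he.2.1
      · exact h ▸ he.2.2
    have e2 : ∀ e ∈ F \ F₁, e.1 ∈ D₂ ∧ e.2 ∈ D₂ := by
      intro e he
      rw [mem_sdiff, hF₁, mem_filter] at he
      have hadj : G.Adj e.1 e.2 := mem_edg.mp (hFt (hF he.1))
      have m1 : e.1 ∈ D₁ ∪ D₂ := hD (mem_vs.mpr ⟨e, he.1, Or.inl rfl⟩)
      have m2 : e.2 ∈ D₁ ∪ D₂ := hD (mem_vs.mpr ⟨e, he.1, Or.inr rfl⟩)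
      rw [mem_union] at m1 m2
      have c1 : ¬ (e.1 ∈ D₁ ∧ e.2 ∈ D₁) := fun h => he.2 ⟨he.1, h⟩
      by_contra hcon
      by_cases p1 : e.1 ∈ D₂
      · have p2 : e.2 ∉ D₂ := fun h => hcon ⟨p1, h⟩
        have p3 : e.2 ∈ D₁ := m2.resolve_right p2
        have p4 : e.1 ∉ D₁ := fun h => c1 ⟨h, p3⟩
        exact h4 e.2 (mem_sdiff.mpr ⟨p3, p2⟩) e.1 (mem_sdiff.mpr ⟨p1, p4⟩) hadj.symm
      · have p3 : e.1 ∈ D₁ := m1.resolve_right p1
        have p4 : e.2 ∉ D₁ := fun h => c1 ⟨p3, h⟩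
        have p5 : e.2 ∈ D₂ := m2.resolve_left p4
        exact h4 e.1 (mem_sdiff.mpr ⟨p3, p1⟩) e.2 (mem_sdiff.mpr ⟨p5, p4⟩) hadj
    have v2 : vs (F \ F₁) ⊆ D₂ := by
      intro v hv
      rw [mem_vs] at hv
      obtain ⟨e, he, h⟩ := hv
      rcases h with h | h
      · exact h ▸ (e2 e he).1
      · exact h ▸ (e2 e he).2
    have hb1 := h1.root_sub
    obtain ⟨Qs₁, R₁, Z₁, Y₁, k₁, z₁, s1⟩ := ih1 F₁ (sub1.trans hF) v1 (by
      intro v hv hvb e he hev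
      have heF := hcl v (mem_union_left _ hv) hvb e he hev
      by_contra hne
      have h5 := e2 e (mem_sdiff.mpr ⟨heF, hne⟩)
      have h6 : v ∈ D₂ := by
        rcases hev with h | h
        · exact h ▸ h5.1
        · exact h ▸ h5.2
      exact hvb (mem_inter.mp (h3 (mem_inter.mpr ⟨hv, h6⟩))).1)
    obtain ⟨Qs₂, R₂, Z₂, Y₂, k₂, z₂, s2⟩ := ih2 (F \ F₁) (sub2.trans hF) v2 (by
      intro v hv hvb e he hev
      have hv1 : v ∉ D₁ := fun h => hvb (mem_inter.mp (h3 (mem_inter.mpr ⟨h, hv⟩))).2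
      have heF := hcl v (mem_union_right _ hv) (fun h => hv1 (hb1 h)) e he hev
      rw [mem_sdiff]
      refine ⟨heF, fun h => hv1 ?_⟩
      exact v1 (mem_vs.mpr ⟨e, h, hev⟩))
    have hU : F₁ ∪ (F \ F₁) = F := union_sdiff_of_subset sub1
    have hd : Disjoint F₁ (F \ F₁) := disjoint_sdiff
    by_cases hc : z₁ + z₂ ≤ 1 ∧
        ((bd G Ft ∩ vs (R₁ ∪ R₂)) \ (β₁ ∪ (Z₁ ∪ Z₂))).card ≤ a
    · have := glue_open h3 hb1 v1 v2 hd s1 s2 hc.1 hc.2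
      rw [hU] at this
      exact ⟨_, _, _, _, _, _, this⟩
    · have := glue_close h3 hb1 v1 v2 hd (by rw [hU]; exact hF) (by rw [hU]; exact hcl)
        h1.root_card h2.root_card hp s1 s2 (by
          intro hz
          by_contra hle
          exact hc ⟨hz, by omega⟩)
      rw [hU] at this
      exact ⟨_, _, _, _, _, _, this⟩

/-- **Redecomposition.** An edge set of small treewidth is a union of tokens with total boundary
only slightly larger than its own boundary. -/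
theorem redec {a p t : ℕ} (hp : 2 * a + 4 * t ≤ p) {F : Finset (V × V)} (hF : F ⊆ edg G)
    (hT : TW G t (vs F)) :
    ∃ n, HasCost G p t F n ∧ a * n ≤ (a + 9 * t) * (bd G F).card := by
  by_cases hsmall : (bd G F).card ≤ p
  · refine ⟨(bd G F).card, HasCost.of_tok ⟨hsmall, hT⟩, ?_⟩
    exact Nat.mul_le_mul_right _ (by omega)
  obtain ⟨β, hTD⟩ := hT
  obtain ⟨Qs, R, Z, Y, k, z, s⟩ := exists_St (a := a) (b := t) (p := p) hp hF hTD F
    (Subset.refl _) (Subset.refl _) (fun v _ _ e he _ => he)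
  have hbd := open_bd (G := G) (Subset.refl F) (Subset.refl (vs F))
    (fun v _ _ e he _ => he) s.un s.RZ (β := β)
  set N := (bd G F ∩ vs R) \ (β ∪ Z) with hN
  have hBc : (β ∪ Z).card ≤ 2 * t := by
    have e1 := card_union_le β Z
    have e3 := s.Zc
    have e5 : z * t ≤ 1 * t := Nat.mul_le_mul_right _ s.z1
    have e6 := hTD.root_card
    omega
  have hbdc : (bd G R).card ≤ N.card + 2 * t := by
    have e1 := card_le_card hbd
    have e2 := card_union_le N (β ∪ Z)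
    omega
  have hRp : (bd G R).card ≤ p := by
    have : N.card ≤ a := s.x
    omega
  have hYN : Disjoint Y N := disjoint_of_subset_right
    (fun v hv => (mem_inter.mp (mem_sdiff.mp hv).1).2) s.YR
  have hYNc : Y.card + N.card ≤ (bd G F).card := by
    rw [← card_union_of_disjoint hYN]
    apply card_le_card
    refine union_subset (s.YX.trans inter_subset_left) ?_
    intro v hv
    exact (mem_inter.mp (mem_sdiff.mp hv).1).1
  have hTok : ∀ P ⊆ F, (bd G P).card ≤ p → Tok G p t P := fun P hP h =>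
    ⟨h, TW.subset ⟨β, hTD⟩ (vs_mono hP)⟩
  have hsubQ : ∀ P ∈ Qs, P ⊆ F := fun P hP =>
    (subset_biUnion_of_mem id hP).trans (s.un ▸ subset_union_left)
  have hsubR : R ⊆ F := s.un ▸ subset_union_right
  refine ⟨cost G Qs + (bd G R).card, ⟨insert R Qs, ⟨?_, ?_, ?_⟩, ?_⟩, ?_⟩
  · rw [biUnion_insert]
    simp only [id]
    rw [union_comm]
    exact s.un
  · intro P hP Q hQ hne
    rcases mem_insert.mp hP with h | h <;> rcases mem_insert.mp hQ with h' | h'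
    · exact absurd (h.trans h'.symm) hne
    · rw [h]
      exact (s.disR Q h').symm
    · rw [h']
      exact s.disR P h
    · exact s.dis P h Q h' hne
  · intro P hP
    rcases mem_insert.mp hP with h | h
    · rw [h]
      exact hTok R hsubR hRp
    · exact hTok P (hsubQ P h) (s.bp P h)
  · have := cost_union_le (G := G) {R} Qs
    rw [insert_eq]
    refine this.trans ?_
    simp [cost, add_comm]
  · have e1 := s.cst
    have e2 := s.acc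
    have e3 : a * k ≤ 2 * (bd G F).card := by
      calc a * k ≤ a * (k + z) := Nat.mul_le_mul_left _ (by omega)
        _ ≤ 2 * Y.card := e2
        _ ≤ 2 * (bd G F).card := by omega
    have e4 : a ≤ (bd G F).card := by omega
    have e5 : cost G Qs + (bd G R).card ≤ (bd G F).card + 3 * t * (k + 1) := by
      have : 3 * t * (k + 1) = 3 * t * k + 3 * t := by ring
      omega
    calc a * (cost G Qs + (bd G R).card) ≤ a * ((bd G F).card + 3 * t * (k + 1)) :=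
          Nat.mul_le_mul_left _ e5
      _ = a * (bd G F).card + 3 * t * (a * k + a) := by ring
      _ ≤ a * (bd G F).card + 3 * t * (2 * (bd G F).card + (bd G F).card) := by
          refine Nat.add_le_add_left (Nat.mul_le_mul_left _ ?_) _
          omega
      _ = (a + 9 * t) * (bd G F).card := by ring

end Pool.Agent.H77TW
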